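import Pool.Agent.Lib.MP_d55432_al.G2.Iface
import Pool.Agent.Lib.MP_d55432_al.Multilin

/-!
# G2: module MULT

A multilinear Lie polynomial on `g2` whose image is the closure of the ray of `TT 1 1`.
-/

namespace Pool.Agent.Lib.MP_d55432_al.G2.H22

open Matrix LieAlgebra

attribute [local instance 100] LieRing.ofAssociativeRing

section ring

variable {A : Type*} [CommRing A]

theorem adM_add (x y : V7 A) : adM (x + y) = adM x + adM y := by
  ext i j
  fin_cases i <;> fin_cases j <;> simp [adM] <;> ring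

theorem adM_smul (c : A) (x : V7 A) : adM (c • x) = c • adM x := by
  ext i j
  fin_cases i <;> fin_cases j <;> simp [adM] <;> ring

theorem DD_add_left (x x' y : V7 A) : DD (x + x') y = DD x y + DD x' y := by
  simp only [DD, adM_add, br_add_left, Matrix.add_mul, Matrix.mul_add]
  abel

theorem DD_add_right (x y y' : V7 A) : DD x (y + y') = DD x y + DD x y' := by
  simp only [DD, adM_add, br_add_right, Matrix.add_mul, Matrix.mul_add]
  abel

theorem DD_smul_left (c : A) (x y : V7 A) : DD (c • x) y = c • DD x y := by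
  simp only [DD, adM_smul, br_smul_left, Matrix.smul_mul, Matrix.mul_smul, smul_sub, smul_add]

theorem DD_smul_right (c : A) (x y : V7 A) : DD x (c • y) = c • DD x y := by
  simp only [DD, adM_smul, br_smul_right, Matrix.smul_mul, Matrix.mul_smul, smul_sub, smul_add]

end ring

section field

variable {K : Type*} [Field K]

theorem tau_add (A B : M7 K) : tau (A + B) = tau A + tau B := by
  simp only [tau, add_mulVec, br_add_left, smul_add]
  abel

theorem tau_smul (c : K) (A : M7 K) : tau (c • A) = c • tau A := by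
  simp only [tau, smul_mulVec, br_smul_left, smul_add, smul_comm c]

/-- Trilinear map with values in the octonions. -/
theorem tri_add_left (x x' y z : M7 K) : tau ((x + x') * y * z) = tau (x * y * z) + tau (x' * y * z) := by
  rw [Matrix.add_mul, Matrix.add_mul, tau_add]

theorem tri_add_mid (x y y' z : M7 K) : tau (x * (y + y') * z) = tau (x * y * z) + tau (x * y' * z) := by
  rw [Matrix.mul_add, Matrix.add_mul, tau_add]

theorem tri_add_right (x y z z' : M7 K) : tau (x * y * (z + z')) = tau (x * y * z) + tau (x * y * z') := by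
  rw [Matrix.mul_add, tau_add]

/-- The function of six elements. -/
def F6 (hD : ∀ x y : V7 K, DD x y ∈ g2 K) (a : Fin 6 → g2 K) : g2 K :=
  ⟨DD (tau ((a 0).1 * (a 1).1 * (a 2).1)) (tau ((a 3).1 * (a 4).1 * (a 5).1)), hD _ _⟩

theorem F6_add (hD : ∀ x y : V7 K, DD x y ∈ g2 K) [inst : DecidableEq (Fin 6)] (a : Fin 6 → g2 K)
    (i : Fin 6) (x y : g2 K) :
    F6 hD (Function.update a i (x + y)) =
      F6 hD (Function.update a i x) + F6 hD (Function.update a i y) := by
  have : inst = instDecidableEqFin 6 := Subsingleton.elim _ _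
  subst this
  apply Subtype.ext
  change DD _ _ = DD _ _ + DD _ _
  fin_cases i <;>
    simp [Function.update, tri_add_left, tri_add_mid, tri_add_right, DD_add_left, DD_add_right]

theorem F6_smul (hD : ∀ x y : V7 K, DD x y ∈ g2 K) [inst : DecidableEq (Fin 6)] (a : Fin 6 → g2 K)
    (i : Fin 6) (c : K) (x : g2 K) :
    F6 hD (Function.update a i (c • x)) = c • F6 hD (Function.update a i x) := by
  have : inst = instDecidableEqFin 6 := Subsingleton.elim _ _
  subst this
  apply Subtype.ext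
  change DD _ _ = c • DD _ _
  fin_cases i <;>
    simp [Function.update, tau_smul, DD_smul_left, DD_smul_right]

/-- The multilinear map. -/
def f6 (hD : ∀ x y : V7 K, DD x y ∈ g2 K) : MultilinearMap K (fun _ : Fin 6 => g2 K) (g2 K) :=
  MultilinearMap.mk (F6 hD) (@F6_add K _ hD) (@F6_smul K _ hD)

theorem f6_equiv (hDER : DER_S K) (hT : TAU_S K) (hA : AUT_S K) :
    IsAutEquivariant K (f6 hDER.1 : (Fin 6 → g2 K) → g2 K) := by
  intro φ a
  obtain ⟨g, h, H, hφ⟩ := hA φ
  have e3 : ∀ x y z : g2 K, (φ x).1 * (φ y).1 * (φ z).1 = g * (x.1 * y.1 * z.1) * h := by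
    intro x y z
    rw [hφ, hφ, hφ, conjG_coe, conjG_coe, conjG_coe]
    calc (g * x.1 * h) * (g * y.1 * h) * (g * z.1 * h)
        = g * x.1 * (h * g) * y.1 * (h * g) * z.1 * h := by simp only [Matrix.mul_assoc]
      _ = _ := by rw [H.2.1, Matrix.mul_one, Matrix.mul_one]; simp only [Matrix.mul_assoc]
  apply Subtype.ext
  rw [hφ, conjG_coe]
  change DD (tau ((φ (a 0)).1 * (φ (a 1)).1 * (φ (a 2)).1))
    (tau ((φ (a 3)).1 * (φ (a 4)).1 * (φ (a 5)).1)) = g * (DD _ _) * h
  rw [e3, e3, hT.1 g h H, hT.1 g h H, hDER.2.1 g h H]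

theorem f6_range (hDER : DER_S K) (hT : TAU_S K) :
    Set.range (f6 hDER.1 : (Fin 6 → g2 K) → g2 K) = {X | ∃ x y, X.1 = DD x y} := by
  ext X
  constructor
  · rintro ⟨a, rfl⟩
    exact ⟨_, _, rfl⟩
  · rintro ⟨v, w, hX⟩
    obtain ⟨x, y, z, h1⟩ := hT.2.2 v
    obtain ⟨x', y', z', h2⟩ := hT.2.2 w
    refine ⟨![x, y, z, x', y', z'], ?_⟩
    apply Subtype.ext
    rw [hX, ← h1, ← h2]
    rfl

theorem Cj.symm {X Y : M7 K} (h : Cj X Y) : Cj Y X := by
  obtain ⟨g, k, H, rfl⟩ := h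
  refine ⟨k, g, H.symm, ?_⟩
  calc X = (k * g) * X * (k * g) := by rw [H.2.1, Matrix.one_mul, Matrix.mul_one]
    _ = _ := by simp only [Matrix.mul_assoc]

theorem Cj.trans {X Y Z : M7 K} (h : Cj X Y) (h' : Cj Y Z) : Cj X Z := by
  obtain ⟨g, k, H, rfl⟩ := h
  obtain ⟨g', k', H', rfl⟩ := h'
  exact ⟨g' * g, k * k', H'.mul H, by simp only [Matrix.mul_assoc]⟩

theorem Cj.smul {X Y : M7 K} (c : K) (h : Cj X Y) : Cj (c • X) (c • Y) := by
  obtain ⟨g, k, H, rfl⟩ := h
  exact ⟨g, k, H, by rw [Matrix.mul_smul, Matrix.smul_mul]⟩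

theorem DD_of_Cj (hDER : DER_S K) {x y : V7 K} {X : M7 K} (h : Cj (DD x y) X) :
    ∃ x' y', X = DD x' y' := by
  obtain ⟨g, k, H, rfl⟩ := h
  exact ⟨g *ᵥ x, g *ᵥ y, (hDER.2.1 g k H x y).symm⟩

theorem RS_eq [CharZero K] (hDER : DER_S K) (hE : EXW1_S K) (hN : NIL_S K) :
    RS K 1 1 {0, 1, 2} = {X : g2 K | ∃ x y, X.1 = DD x y} := by
  ext X
  constructor
  · rintro (h0 | ⟨s, hs, hX⟩ | ⟨hX0, hX7, hr⟩)
    · refine ⟨0, 0, ?_⟩
      rw [h0]
      have := DD_smul_left (0 : K) (0 : V7 K) (0 : V7 K)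
      rw [zero_smul, zero_smul] at this
      exact this.symm
    · have hd : bb (ee 1 : V7 K) (ee 4) ^ 2 - 4 * qq (ee 1 : V7 K) * qq (ee 4 : V7 K) ≠ 0 := by
        simp [bb, qq, ee, Pi.single_apply]
      obtain ⟨t, ht, h1⟩ := hE.1 _ _ hd
      have h2 : Cj ((s / t) • DD (ee 1 : V7 K) (ee 4)) X.1 := by
        have h3 := Cj.smul (s / t) (Cj.symm h1)
        rw [smul_smul, div_mul_cancel₀ _ ht] at h3
        exact Cj.trans h3 hX
      rw [← DD_smul_left] at h2
      exact DD_of_Cj hDER h2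
    · have hX1 : X.1 ≠ 0 := fun h => hX0 (Subtype.ext h)
      obtain ⟨x, y, hd0, hd7, hdr⟩ := hE.2.2 _ hr
      have hDm : DD x y ∈ g2 K := hDER.1 x y
      have key : ∀ N : M7 K, Cj N X.1 → Cj N (DD x y) → ∃ x' y', X.1 = DD x' y' :=
        fun N h1 h2 => DD_of_Cj hDER (Cj.trans (Cj.symm h2) h1)
      rcases hN.1 X.1 X.2 hX7 hX1 with ⟨r1, c1⟩ | ⟨r1, c1⟩ | ⟨r1, c1⟩ | ⟨r1, c1⟩ <;>
      rcases hN.1 (DD x y) hDm hd7 hd0 with ⟨r2, c2⟩ | ⟨r2, c2⟩ | ⟨r2, c2⟩ | ⟨r2, c2⟩ <;>
      first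
      | exact absurd (r2.symm.trans (hdr.trans r1)) (by decide)
      | exact key _ c1 c2
  · rintro ⟨x, y, hX⟩
    by_cases h0 : X = 0
    · exact Or.inl h0
    · right
      by_cases hd : bb x y ^ 2 - 4 * qq x * qq y = 0
      · right
        have h5 := hE.2.1 x y hd
        rw [← hX] at h5
        have h7 : X.1 ^ 7 = 0 := by
          have h : X.1 ^ 7 = X.1 ^ 5 * X.1 ^ 2 := pow_add X.1 5 2
          rw [h, h5, zero_mul]
        have hX1 : X.1 ≠ 0 := fun h => h0 (Subtype.ext h)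
        refine ⟨h0, h7, ?_⟩
        have h55 := hN.2 X.1 X.2 h7
        rcases hN.1 X.1 X.2 h7 hX1 with ⟨r1, -⟩ | ⟨r1, -⟩ | ⟨r1, -⟩ | ⟨r1, -⟩
        · rw [r1]; simp
        · rw [r1]; simp
        · rw [r1]; simp
        · exact absurd h5 (h55.1 r1)
      · left
        rw [hX]
        exact hE.1 x y hd

end field

theorem mult (K : Type*) [Field K] [IsAlgClosed K] [CharZero K] (hDER : DER_S K) (hT : TAU_S K)
    (hA : AUT_S K) (hE : EXW1_S K) (hN : NIL_S K) (hS : SIMPLE_S K) : MULT_S K := by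
  have : FiniteDimensional K (g2 K) := inferInstanceAs (FiniteDimensional K (g2 K).toSubmodule)
  have : LieAlgebra.IsSimple K (g2 K) := hS
  apply (multilinear_images (RS K 1 1 {0, 1, 2})).2
  exact ⟨6, f6 hDER.1, by norm_num, f6_equiv hDER hT hA, by
    rw [f6_range hDER hT, RS_eq hDER hE hN]⟩

end Pool.Agent.Lib.MP_d55432_al.G2.H22
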